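import Pool.Agent.MP_db1c88_nt.z94.Detect
import Pool.Agent.MP_db1c88_nt.z94.Basic

/-! Moments of zeta off the critical line: approximation by a smoothed Dirichlet series. -/

set_option autoImplicit false

noncomputable section

namespace Pool.Agent.MP_3d0d30_nt.Off

open Complex MeasureTheory Filter Topology Finset
open Pool.Agent.MP_db1c88_nt.zd (vint strip vint_shift vint_residue mem_strip integrable_line
  continuous_line integrable_div_one_add_sq)
open Pool.Agent.MP_db1c88_nt.z94 Pool.Agent.MP_db1c88_nt.z94.Det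

/-- Gaussian average of zeta on the critical line -/
def zs (t : ℝ) : ℝ :=
  ∫ u : ℝ, ‖riemannZeta (1 / 2 + (t + u : ℝ) * I)‖ * Real.exp (-u ^ 2 / 2)

theorem zs_nonneg (t : ℝ) : 0 ≤ zs t := integral_nonneg fun u => by positivity

/-- the smoothed series of length `exp L` -/
def SS (L : ℝ) (ρ : ℂ) : ℂ := vint (fun w => riemannZeta (ρ + w) * (Det.ker L w / w)) 1

theorem MM_one (s : ℂ) : MM 1 s = 1 := by simp [MM, mu]

theorem hasSum_SS (L : ℝ) {ρ : ℂ} (hρ : 0 < ρ.re) : HasSum (cc 1 L ρ) (SS L ρ) := by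
  simpa only [MM_one, one_mul, SS] using hasSum_cc 1 L hρ

theorem apx_aux {Z : ℝ} (hZ : ∀ s : ℂ, 3 / 2 ≤ s.re → ‖riemannZeta s‖ ≤ Z) (L : ℝ) {ρ : ℂ}
    (h1 : 1 / 2 < ρ.re) (h2 : ρ.re ≤ 1) (h3 : 1 ≤ ρ.im) :
    ‖2 * Real.pi * riemannZeta ρ - SS L ρ‖ ≤ Z * Real.exp (L + 1) * Real.pi / ρ.im +
      (1 / (ρ.re - 1 / 2) + 1) * Real.exp (L * (1 / 2 - ρ.re) + 1) * zs ρ.im := by
  set a : ℝ := 1 / 2 - ρ.re with ha
  set g : ℝ := 1 / (ρ.re - 1 / 2) with hg
  have ha0 : a < 0 := by linarith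
  have ha1 : -(1 / 2) ≤ a := by linarith
  have hg0 : 0 < g := by rw [hg]; exact one_div_pos.2 (by linarith)
  have hga : g * (-a) = 1 := by
    rw [hg, ha, neg_sub]; exact one_div_mul_cancel (by linarith : (0 : ℝ) < ρ.re - 1 / 2).ne'
  have hρ1 : ρ ≠ 1 := fun h => by rw [h] at h3; norm_num at h3
  have hρ2 : ρ - 1 ≠ 0 := sub_ne_zero.2 hρ1
  have hn : ρ.im ≤ ‖ρ - 1‖ := by simpa using (le_abs_self _).trans (abs_im_le_norm (ρ - 1))
  have hZ0 : 0 ≤ Z := (norm_nonneg _).trans (hZ 2 (by norm_num))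
  set G : ℂ → ℂ := fun w => riemannZeta₁ (ρ + w) * Det.ker L w with hG
  have hGd : Differentiable ℂ G := by
    have := differentiable_riemannZeta₁
    simp only [hG]
    fun_prop
  have hres := vint_residue (G := G) (a := a) (b := 1)
    (C := 3 * (2 * (2 + ‖ρ‖ + 1) ^ 2) * Real.exp (|L| + 1) * 4) ha0 one_pos
    hGd.differentiableOn (fun y u hy1 hy2 hu => by
      have hw : 1 ≤ ‖(y : ℂ) + u * I‖ := hu.trans (im_le_norm y u)
      have hr : 1 / 2 ≤ (ρ + (y + u * I)).re := by simp; linarith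
      have hy : |y| ≤ 1 := abs_le.2 ⟨by linarith, hy2⟩
      have b1 := norm_zeta1_le hr
      have b3 : ‖ρ + (y + u * I)‖ ≤ ‖ρ‖ + (1 + |u|) :=
        (norm_add_le _ _).trans (by linarith [MP_3d0d30_nt.norm_line_le y u])
      have b4 : (1 + ‖ρ + (y + u * I)‖) ^ 2 ≤ 2 * (2 + ‖ρ‖ + 1) ^ 2 * (1 + u ^ 2) := by
        have c0 := norm_nonneg ρ
        have c1 : 1 + ‖ρ + (y + u * I)‖ ≤ (2 + ‖ρ‖ + 1) * |u| := by nlinarith
        calc _ ≤ ((2 + ‖ρ‖ + 1) * |u|) ^ 2 := by gcongr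
          _ = (2 + ‖ρ‖ + 1) ^ 2 * u ^ 2 := by rw [mul_pow, sq_abs]
          _ ≤ _ := by nlinarith [sq_nonneg (2 + ‖ρ‖ + 1), sq_nonneg u,
              mul_nonneg (sq_nonneg (2 + ‖ρ‖ + 1)) (sq_nonneg u)]
      have b5 : Real.exp (L * y + y ^ 2) ≤ Real.exp (|L| + 1) := by
        have h4 : L * y ≤ |L| := by
          calc L * y ≤ |L| * |y| := by rw [← abs_mul]; exact le_abs_self _
            _ ≤ |L| * 1 := by gcongr
            _ = _ := mul_one _
        have h5 : y ^ 2 ≤ 1 := by rw [← sq_abs]; nlinarith [abs_nonneg y]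
        gcongr
      rw [norm_div]
      refine (div_le_self (norm_nonneg _) hw).trans ?_
      simp only [hG]
      rw [norm_mul, norm_ker]
      calc _ ≤ (3 * (2 * (2 + ‖ρ‖ + 1) ^ 2 * (1 + u ^ 2))) *
            (Real.exp (|L| + 1) * Real.exp (-u ^ 2)) := by
            gcongr
            exact b1.trans (by gcongr)
        _ = 3 * (2 * (2 + ‖ρ‖ + 1) ^ 2) * Real.exp (|L| + 1) *
            ((1 + u ^ 2) * Real.exp (-u ^ 2)) := by ring
        _ ≤ 3 * (2 * (2 + ‖ρ‖ + 1) ^ 2) * Real.exp (|L| + 1) * (4 / (1 + u ^ 2)) := by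
            gcongr; exact gauss_le2 u
        _ = _ := by ring)
  have hG0 : G 0 = (ρ - 1) * riemannZeta ρ := by simp [hG, zeta1_eq' hρ1, ker_zero]
  rw [hG0] at hres
  have hre : ∀ u : ℝ, (ρ + ((1 : ℝ) + u * I)).re = ρ.re + 1 := fun u => by simp
  have hne : ∀ u : ℝ, ρ + ((1 : ℝ) + u * I) ≠ 1 := fun u h => by
    have := hre u
    rw [h] at this
    simp at this
    linarith
  have hzc : Continuous fun u : ℝ => riemannZeta (ρ + ((1 : ℝ) + u * I)) :=
    continuous_iff_continuousAt.2 fun u =>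
      ContinuousAt.comp (f := fun u : ℝ => ρ + ((1 : ℝ) + u * I))
        (differentiableAt_riemannZeta (hne u)).continuousAt (by fun_prop)
  have hkc := (differentiable_ker L).continuous
  have hb : ∀ u : ℝ, ‖riemannZeta (ρ + ((1 : ℝ) + u * I))‖ ≤ Z :=
    fun u => hZ _ (by rw [hre]; linarith)
  have hb2 : ∀ u : ℝ, ‖riemannZeta (ρ + ((1 : ℝ) + u * I)) *
      Det.ker L ((1 : ℝ) + u * I)‖ ≤ Z * Real.exp (L + 1) / (1 + u ^ 2) := fun u => by
    rw [norm_mul, norm_ker, mul_one, one_pow, ← mul_assoc, div_eq_mul_one_div]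
    gcongr
    exacts [hb u, gauss_le u]
  have i1 : Integrable fun u : ℝ =>
      riemannZeta (ρ + ((1 : ℝ) + u * I)) * (Det.ker L ((1 : ℝ) + u * I) / ((1 : ℝ) + u * I)) :=
    (integrable_ker_div L).bdd_mul (c := Z) hzc.aestronglyMeasurable (Eventually.of_forall hb)
  have i2 : Integrable fun u : ℝ =>
      riemannZeta (ρ + ((1 : ℝ) + u * I)) * Det.ker L ((1 : ℝ) + u * I) :=
    integrable_line (F := fun w => riemannZeta (ρ + w) * Det.ker L w) (by fun_prop) hb2
  have hsplit : vint (fun w => G w / w) 1 =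
      (ρ - 1) * SS L ρ + vint (fun w => riemannZeta (ρ + w) * Det.ker L w) 1 := by
    simp only [SS, vint]
    rw [← integral_const_mul, ← integral_add (i1.const_mul _) i2]
    congr 1
    funext u
    simp only [hG]
    rw [zeta1_eq' (hne u)]
    have := one_ne u
    field_simp
    ring
  have hsec := norm_vint_le (F := fun w => riemannZeta (ρ + w) * Det.ker L w) hb2
  have hl : ∀ u : ℝ, ρ + ((a : ℂ) + u * I) = 1 / 2 + (ρ.im + u : ℝ) * I := fun u => by
    apply Complex.ext <;> simp [ha]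
  have hlne : ∀ t : ℝ, (1 / 2 : ℂ) + t * I ≠ 1 := fun t h => by
    have := congrArg re h
    norm_num at this
  have hzl : Continuous fun u : ℝ => riemannZeta (1 / 2 + (ρ.im + u : ℝ) * I) :=
    continuous_iff_continuousAt.2 fun u =>
      ContinuousAt.comp (f := fun u : ℝ => (1 / 2 : ℂ) + (ρ.im + u : ℝ) * I)
        (differentiableAt_riemannZeta (hlne _)).continuousAt (by fun_prop)
  have i3 : Integrable fun u : ℝ =>
      ‖riemannZeta (1 / 2 + (ρ.im + u : ℝ) * I)‖ * Real.exp (-u ^ 2 / 2) := by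
    have g1 : Integrable fun u : ℝ => Real.exp (-(1 / 2) * u ^ 2) :=
      integrable_exp_neg_mul_sq (by norm_num)
    have g2 : Integrable fun u : ℝ => |u * Real.exp (-(1 / 2) * u ^ 2)| :=
      (integrable_mul_exp_neg_mul_sq (by norm_num)).abs
    refine ((g1.const_mul (2 * (1 + ρ.im))).add (g2.const_mul 2)).mono'
      (Continuous.aestronglyMeasurable (by fun_prop)) (Eventually.of_forall fun u => ?_)
    have c1 := MP_3d0d30_nt.norm_zeta_half_le (ρ.im + u)
    have c2 : |ρ.im + u| ≤ ρ.im + |u| := (abs_add_le _ _).trans (by rw [abs_of_pos (by linarith)])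
    rw [Real.norm_of_nonneg (by positivity), Pi.add_apply, abs_mul, abs_of_pos (Real.exp_pos _),
      show -(1 / 2) * u ^ 2 = -u ^ 2 / 2 by ring]
    have := Real.exp_pos (-u ^ 2 / 2)
    nlinarith
  have hleft : ‖vint (fun w => G w / w) a‖ ≤ ‖ρ - 1‖ *
      ((g + 1) * Real.exp (L * a + 1) * zs ρ.im) := by
    rw [← mul_assoc, zs, ← integral_const_mul]
    refine norm_integral_le_of_norm_le (i3.const_mul _) (Eventually.of_forall fun u => ?_)
    have c1 : -a ≤ ‖(a : ℂ) + u * I‖ := le_trans (neg_le_abs a) (re_le_norm a u)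
    have c0 : 1 ≤ g * ‖(a : ℂ) + u * I‖ := hga ▸ mul_le_mul_of_nonneg_left c1 hg0.le
    have c2 : ‖ρ + ((a : ℂ) + u * I) - 1‖ ≤ (g + 1) * ‖ρ - 1‖ * ‖(a : ℂ) + u * I‖ := by
      rw [show ρ + ((a : ℂ) + u * I) - 1 = (ρ - 1) + (a + u * I) by ring]
      refine (norm_add_le _ _).trans ?_
      have d1 := mul_le_mul_of_nonneg_left c0 (norm_nonneg (ρ - 1))
      have d2 := mul_le_mul_of_nonneg_right (h3.trans hn) (norm_nonneg ((a : ℂ) + u * I))
      nlinarith
    have c4 : Real.exp (L * a + a ^ 2) ≤ Real.exp (L * a + 1) := by gcongr; nlinarith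
    have c5 : Real.exp (-u ^ 2) ≤ Real.exp (-u ^ 2 / 2) := by gcongr; nlinarith [sq_nonneg u]
    simp only [hG]
    rw [norm_div, div_le_iff₀ (by linarith), zeta1_eq' (by rw [hl]; exact hlne _), norm_mul,
      norm_mul, norm_ker]
    rw [hl u] at *
    calc _ ≤ ((g + 1) * ‖ρ - 1‖ * ‖(a : ℂ) + u * I‖) *
          ‖riemannZeta (1 / 2 + (ρ.im + u : ℝ) * I)‖ *
          (Real.exp (L * a + 1) * Real.exp (-u ^ 2 / 2)) := by gcongr
      _ = _ := by ring
  have hpos : 0 < ‖ρ - 1‖ := norm_pos_iff.2 hρ2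
  have e : 2 * Real.pi * riemannZeta ρ - SS L ρ =
      (vint (fun w => riemannZeta (ρ + w) * Det.ker L w) 1 - vint (fun w => G w / w) a) /
        (ρ - 1) := by
    rw [hsplit] at hres
    rw [eq_div_iff hρ2]
    linear_combination -hres
  rw [e, norm_div, div_le_iff₀ hpos]
  refine (norm_sub_le _ _).trans ?_
  have c6 : Z * Real.exp (L + 1) * Real.pi ≤
      Z * Real.exp (L + 1) * Real.pi / ρ.im * ‖ρ - 1‖ := by
    rw [div_mul_eq_mul_div, le_div_iff₀ (by linarith)]
    have := Real.pi_pos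
    gcongr
  nlinarith

/-- zeta is the smoothed series plus an average on the critical line -/
theorem apx {σ : ℝ} (h1 : 1 / 2 < σ) (h2 : σ ≤ 1) : ∃ C : ℝ, 1 ≤ C ∧ ∀ t L : ℝ, 1 ≤ t →
    6 * ‖riemannZeta (σ + t * I)‖ ≤ ‖SS L (σ + t * I)‖ + C * (Real.exp L / t) +
      C * Real.exp (L * (1 / 2 - σ)) * zs t := by
  obtain ⟨Z, hZ1, hZ⟩ := zeta_bdd
  have hg : 0 < 1 / (σ - 1 / 2) := one_div_pos.2 (by linarith)
  refine ⟨12 * Z + 3 * (1 / (σ - 1 / 2) + 1), by linarith, fun t L ht => ?_⟩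
  have h := apx_aux hZ L (ρ := σ + t * I) (by simpa using h1) (by simpa using h2) (by simpa using ht)
  have e1 : ((σ : ℂ) + t * I).re = σ := by simp
  have e2 : ((σ : ℂ) + t * I).im = t := by simp
  rw [e1, e2, Real.exp_add, Real.exp_add] at h
  have he : Real.exp 1 ≤ 3 := Real.exp_one_lt_d9.le.trans (by norm_num)
  have hp3 := Real.pi_gt_three
  have hp4 := Real.pi_lt_four
  have a1 : ‖2 * Real.pi * riemannZeta (σ + t * I)‖ = 2 * Real.pi * ‖riemannZeta (σ + t * I)‖ := by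
    simp [abs_of_pos Real.pi_pos]
  have a2 := norm_sub_norm_le (2 * Real.pi * riemannZeta (σ + t * I)) (SS L (σ + t * I))
  have a3 := norm_nonneg (riemannZeta (σ + t * I))
  have a4 : 0 ≤ Real.exp L / t := by positivity
  have a5 : 0 ≤ Real.exp (L * (1 / 2 - σ)) * zs t := mul_nonneg (Real.exp_pos _).le (zs_nonneg t)
  have a6 : Z * (Real.exp L * Real.exp 1) * Real.pi / t ≤ 12 * Z * (Real.exp L / t) := by
    calc _ = Z * (Real.exp 1 * Real.pi) * (Real.exp L / t) := by ring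
      _ ≤ Z * (3 * 4) * (Real.exp L / t) := by gcongr
      _ = _ := by ring
  have a7 : (1 / (σ - 1 / 2) + 1) * (Real.exp (L * (1 / 2 - σ)) * Real.exp 1) * zs t ≤
      3 * (1 / (σ - 1 / 2) + 1) * (Real.exp (L * (1 / 2 - σ)) * zs t) := by
    calc _ = Real.exp 1 * (1 / (σ - 1 / 2) + 1) * (Real.exp (L * (1 / 2 - σ)) * zs t) := by ring
      _ ≤ _ := by gcongr
  have a8 := mul_nonneg hg.le a4
  have a9 := mul_nonneg (by linarith : 0 ≤ Z) a5
  nlinarith

/-- coefficients of the block `(2 ^ i, 2 ^ (i + 1)]` of the smoothed series -/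
def bb (σ L : ℝ) (i n : ℕ) : ℂ :=
  if 2 ^ i < n then (starRingEnd ℂ) (aa 1 n * VV (L - Real.log n)) *
    (Real.exp (-σ * (Real.log n - i * Real.log 2)) / 16 : ℝ) else 0

theorem norm_bb_le {σ : ℝ} (hσ : 0 ≤ σ) (L : ℝ) (i n : ℕ) : ‖bb σ L i n‖ ≤ 1 := by
  unfold bb
  split_ifs with h
  · have h1 : i * Real.log 2 ≤ Real.log n := by
      rw [← Real.log_pow]
      exact Real.log_le_log (by positivity) (by exact_mod_cast h.le)
    have h2 : Real.exp (-σ * (Real.log n - i * Real.log 2)) ≤ 1 :=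
      Real.exp_le_one_iff.2 (by nlinarith)
    have h3 : ‖aa 1 n‖ ≤ 1 := by simpa using norm_aa_le 1 n
    have h4 : ‖VV (L - Real.log n)‖ ≤ 16 :=
      (norm_VV_bdd _).trans (by linarith [Real.pi_lt_d2])
    rw [norm_mul, Complex.norm_conj, norm_mul, Complex.norm_real,
      Real.norm_of_nonneg (by positivity)]
    calc _ ≤ 1 * 16 * (1 / 16 : ℝ) := by gcongr
      _ = 1 := by norm_num
  · simp

theorem block_norm (σ t L : ℝ) (i : ℕ) :
    ‖∑ n ∈ Ioc (2 ^ i) (2 ^ (i + 1)), cc 1 L (σ + t * I) n‖ =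
      16 * Real.exp (-σ * (i * Real.log 2)) * ‖DP (blk (2 ^ i) 2) (bb σ L i) t‖ := by
  have e : (starRingEnd ℂ) (∑ n ∈ Ioc (2 ^ i) (2 ^ (i + 1)), cc 1 L (σ + t * I) n) =
      (16 * Real.exp (-σ * (i * Real.log 2)) : ℝ) * DP (blk (2 ^ i) 2) (bb σ L i) t := by
    simp only [DP, bb, ite_mul, zero_mul]
    rw [← sum_filter, map_sum, mul_sum]
    refine sum_congr ?_ fun n _ => ?_
    · ext n
      rw [mem_filter, mem_blk (by positivity) (by norm_num), mem_Ioc, ← pow_succ']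
      exact ⟨fun h => ⟨⟨by exact_mod_cast h.1.le, by exact_mod_cast h.2⟩, h.1⟩,
        fun h => ⟨h.2, by exact_mod_cast h.1.2⟩⟩
    · have k : (starRingEnd ℂ) (cexp (-(σ + t * I) * Real.log n)) =
          (Real.exp (-σ * (i * Real.log 2)) : ℝ) *
            (Real.exp (-σ * (Real.log n - i * Real.log 2)) : ℝ) * ei (t * Real.log n) := by
        rw [← Complex.exp_conj, ei, Complex.ofReal_exp, Complex.ofReal_exp, ← Complex.exp_add,
          ← Complex.exp_add]
        generalize Real.log n = y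
        generalize i * Real.log 2 = z
        congr 1
        apply Complex.ext <;> simp <;> ring
      rw [cc, map_mul, map_mul, map_mul, k]
      push_cast
      ring
  rw [← Complex.norm_conj, e, norm_mul, Complex.norm_real, Real.norm_of_nonneg (by positivity)]

/-- the smoothed series in dyadic blocks -/
theorem blocks {σ c : ℝ} (hσ : 0 < σ) (hc : 2 ≤ c) (t : ℝ) (j D : ℕ)
    (h : 2 * (j * Real.log 2) ≤ (c - 2) * (D * Real.log 2)) :
    ‖SS (j * Real.log 2) (σ + t * I)‖ ≤ 16 + 8 * Real.exp (c ^ 2) + ∑ i ∈ range (j + D),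
      16 * Real.exp (-σ * (i * Real.log 2)) * ‖DP (blk (2 ^ i) 2) (bb σ (j * Real.log 2) i) t‖ := by
  have hp := Real.pi_pos
  have hre : 0 < ((σ : ℂ) + t * I).re := by simpa using hσ
  have htail := tail_le (D := Real.pi * Real.exp (c ^ 2)) (k := 2 ^ (j + D))
    (by positivity) (hasSum_SS (j * Real.log 2) hre) (fun n hn => by
      have a0 : (0 : ℝ) < n := by exact_mod_cast lt_of_le_of_lt (Nat.zero_le _) hn
      have a3 : j * Real.log 2 + D * Real.log 2 ≤ Real.log n := by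
        rw [← add_mul, ← Nat.cast_add, ← Real.log_pow]
        exact Real.log_le_log (by positivity) (by exact_mod_cast hn.le)
      have a4 : 1 / (n : ℝ) ^ 2 = Real.exp (-(2 * Real.log n)) := by
        rw [Real.exp_neg, show 2 * Real.log n = Real.log n + Real.log n by ring, Real.exp_add,
          Real.exp_log a0, sq, one_div]
      have a5 : ‖aa 1 n‖ ≤ 1 := by simpa using norm_aa_le 1 n
      rw [cc, norm_mul, norm_mul, a4]
      calc _ ≤ 1 * 1 * (Real.exp ((j * Real.log 2 - Real.log n) * c + c ^ 2) * Real.pi) := by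
            gcongr
            exacts [norm_exp_log_le hre.le n, norm_VV_le _ (by linarith)]
        _ = Real.pi * Real.exp ((j * Real.log 2 - Real.log n) * c + c ^ 2) := by ring
        _ ≤ Real.pi * Real.exp (c ^ 2 + -(2 * Real.log n)) := by
            gcongr Real.pi * Real.exp ?_
            have a6 := mul_le_mul_of_nonneg_left a3 (sub_nonneg.2 hc)
            linarith
        _ = _ := by rw [Real.exp_add]; ring)
  have hm : Monotone fun i : ℕ => 2 ^ i := fun _ _ h => Nat.pow_le_pow_right (by norm_num) h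
  have hs := sum_blocks (cc 1 (j * Real.log 2) (σ + t * I)) (fun i => 2 ^ i) hm (j + D)
  simp only [pow_zero] at hs
  rw [sum_split le_rfl Nat.one_le_two_pow, hs] at htail
  have h1 := norm_sub_norm_le (SS (j * Real.log 2) (σ + t * I)) (VV (j * Real.log 2) +
    ∑ i ∈ range (j + D), ∑ n ∈ Ioc (2 ^ i) (2 ^ (i + 1)), cc 1 (j * Real.log 2) (σ + t * I) n)
  have h2 := norm_add_le (VV (j * Real.log 2))
    (∑ i ∈ range (j + D), ∑ n ∈ Ioc (2 ^ i) (2 ^ (i + 1)), cc 1 (j * Real.log 2) (σ + t * I) n)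
  have h3 := norm_sum_le (range (j + D))
    fun i => ∑ n ∈ Ioc (2 ^ i) (2 ^ (i + 1)), cc 1 (j * Real.log 2) (σ + t * I) n
  simp only [block_norm] at h3
  have h4 : ‖VV (j * Real.log 2)‖ ≤ 16 := (norm_VV_bdd _).trans (by linarith [Real.pi_lt_d2])
  have h5 := mul_le_mul_of_nonneg_right Real.pi_lt_four.le (Real.exp_pos (c ^ 2)).le
  linarith

end Pool.Agent.MP_3d0d30_nt.Off

end
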