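import Pool.Agent.MP_3d0d30_nt.Off.Lev

/-! Moments of zeta off the critical line: large values of zeta. -/

set_option autoImplicit false

noncomputable section

namespace Pool.Agent.MP_3d0d30_nt.Off

open MeasureTheory Filter Finset
open Pool.Agent.MP_db1c88_nt.z94

/-- zeta on the line of abscissa `σ` -/
def zo (σ t : ℝ) : ℝ := ‖riemannZeta (σ + t * Complex.I)‖

theorem continuous_zo {σ : ℝ} (h : σ < 1) : Continuous (zo σ) := by
  refine continuous_iff_continuousAt.mpr fun v => ContinuousAt.norm ?_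
  refine ContinuousAt.comp (g := riemannZeta) (differentiableAt_riemannZeta fun e => ?_).continuousAt
    (by fun_prop)
  have := congrArg Complex.re e
  simp at this
  linarith

theorem two_pow_rpow (i : ℕ) (x : ℝ) : ((2 : ℝ) ^ i) ^ x = Real.exp (i * Real.log 2 * x) := by
  rw [Real.rpow_def_of_pos (by positivity), Real.log_pow]

/-- a large value of zeta comes from the critical line or from one block -/
theorem cover {σ c C T Δ V t : ℝ} {D J : ℕ} (h1 : 1 / 2 < σ) (h2 : σ ≤ 5 / 8) (hc : 2 ≤ c)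
    (hC : 1 ≤ C) (hA : ∀ t L : ℝ, 1 ≤ t → 6 * zo σ t ≤ ‖SS L (σ + t * Complex.I)‖ +
      C * (Real.exp L / t) + C * Real.exp (L * (1 / 2 - σ)) * zs t)
    (hT : 2 ≤ T) (ht : T / 2 ≤ t) (hΔ : 2 ≤ Δ) (hCΔ : 16 + 8 * Real.exp (c ^ 2) + 2 * C ≤ Δ)
    (hD : 2 ^ D ≤ 2 * Δ) (hJ : 2 ^ J ≤ T)
    (hcD : 2 * (J * Real.log 2) ≤ (c - 2) * (D * Real.log 2)) (hI : 16 * ((J + D : ℕ) : ℝ) ≤ Δ)
    (hV : Δ ^ 5 ≤ V) (hz : V ≤ zo σ t) :
    V ≤ C * Real.exp (J * Real.log 2 * (1 / 2 - σ)) * zs t ∨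
    ∃ j < J + D + 1, ∃ i < J + D + 1, ∃ m < J + D + 1, Δ ^ 3 ≤ 2 ^ i ∧
      2 ^ m * (V * (2 ^ i) ^ σ / Δ) ≤ ‖DP (blk (2 ^ i) 2) (bb σ (j * Real.log 2) i) t‖ ∧
      ‖DP (blk (2 ^ i) 2) (bb σ (j * Real.log 2) i) t‖ ≤ 2 * (2 ^ m * (V * (2 ^ i) ^ σ / Δ)) ∧
      V ≤ Δ ^ 2 * (2 ^ i) ^ (1 / 2 - σ) * zs t := by
  refine or_iff_not_imp_left.2 fun h0 => ?_
  have hex : ∃ j : ℕ, C * Real.exp (j * Real.log 2 * (1 / 2 - σ)) * zs t ≤ V :=
    ⟨J, (not_le.1 h0).le⟩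
  classical
  set j := Nat.find hex with hj
  have hjJ : j ≤ J := Nat.find_min' hex (not_le.1 h0).le
  have hjs : C * Real.exp (j * Real.log 2 * (1 / 2 - σ)) * zs t ≤ V := Nat.find_spec hex
  have hl2 : 0 < Real.log 2 := Real.log_pos one_lt_two
  have hΔ0 : 0 < Δ := by linarith
  have hΔ4 : 16 ≤ Δ ^ 4 := by nlinarith [pow_le_pow_left₀ (by norm_num) hΔ 4]
  have hΔV : Δ ≤ V := by nlinarith
  have hV0 : 0 < V := by linarith
  have hjJ' : (j : ℝ) ≤ J := by exact_mod_cast hjJ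
  have a1 := hA t (j * Real.log 2) (by linarith)
  have a2 := blocks (by linarith : 0 < σ) hc t j D (by nlinarith)
  have a3 : Real.exp (j * Real.log 2) / t ≤ 2 := by
    rw [Real.exp_nat_mul, Real.exp_log two_pos, div_le_iff₀ (by linarith)]
    have : (2 : ℝ) ^ j ≤ 2 ^ J := pow_le_pow_right₀ one_le_two hjJ
    linarith
  have a4 := mul_le_mul_of_nonneg_left a3 (by linarith : 0 ≤ C)
  obtain ⟨i, hi, a5⟩ : ∃ i ∈ range (j + D), 16 * (V / Δ) ≤ 16 * Real.exp (-σ * (i * Real.log 2)) *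
      ‖DP (blk (2 ^ i) 2) (bb σ (j * Real.log 2) i) t‖ := by
    by_contra hcon
    push Not at hcon
    have b1 := sum_le_card_nsmul _ _ _ fun i hi => (hcon i hi).le
    rw [card_range, nsmul_eq_mul] at b1
    have b2 : ((j + D : ℕ) : ℝ) ≤ (J + D : ℕ) := by exact_mod_cast Nat.add_le_add_right hjJ D
    have b3 : ((j + D : ℕ) : ℝ) * (16 * (V / Δ)) ≤ V := by
      calc _ = 16 * ((j + D : ℕ) : ℝ) * (V / Δ) := by ring
        _ ≤ Δ * (V / Δ) := mul_le_mul_of_nonneg_right (by linarith) (by positivity)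
        _ = V := by field_simp
    linarith
  rw [mem_range] at hi
  set P := ‖DP (blk (2 ^ i) 2) (bb σ (j * Real.log 2) i) t‖ with hP
  have hn1 : (1 : ℝ) ≤ 2 ^ i := one_le_pow₀ one_le_two
  have hPn : P ≤ 2 * 2 ^ i := by
    have b1 := norm_DP_le (blk (2 ^ i) 2) (norm_bb_le (by linarith : 0 ≤ σ) (j * Real.log 2) i) t
    have b2 := card_blk_le hn1 (c := 2) (by norm_num)
    linarith
  have hnσ : (1 : ℝ) ≤ (2 ^ i) ^ σ := Real.one_le_rpow hn1 (by linarith)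
  have a6 : V * (2 ^ i) ^ σ / Δ ≤ P := by
    have b1 : Real.exp (-σ * (i * Real.log 2)) * (2 ^ i) ^ σ = 1 := by
      rw [two_pow_rpow, ← Real.exp_add, ← Real.exp_zero]; congr 1; ring
    have b2 := mul_le_mul_of_nonneg_right a5 (by linarith : (0 : ℝ) ≤ (2 ^ i) ^ σ)
    have b3 : 16 * Real.exp (-σ * (i * Real.log 2)) * P * (2 ^ i) ^ σ = 16 * P := by
      linear_combination 16 * P * b1
    rw [mul_div_right_comm]
    linarith
  have a7 : Δ ^ 4 ≤ V * (2 ^ i) ^ σ / Δ := by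
    rw [le_div_iff₀ hΔ0, ← pow_succ]
    exact hV.trans (le_mul_of_one_le_right hV0.le hnσ)
  have a8 : Δ ^ 3 ≤ 2 ^ i := by nlinarith [pow_pos hΔ0 3]
  obtain ⟨m, hm1, hm2⟩ := exists_nat_pow_near (x := P / (V * (2 ^ i) ^ σ / Δ)) (y := 2)
    ((one_le_div (by positivity)).2 a6) one_lt_two
  rw [le_div_iff₀ (by positivity)] at hm1
  rw [div_lt_iff₀ (by positivity), pow_succ', mul_assoc] at hm2
  have hmi : m < i := by
    refine (pow_lt_pow_iff_right₀ (one_lt_two (α := ℝ))).1 ?_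
    have b1 := mul_le_mul_of_nonneg_left (hΔ4.trans a7) (by positivity : (0 : ℝ) ≤ 2 ^ m)
    linarith
  have hDi : D ≤ i := by
    refine (pow_le_pow_iff_right₀ (one_lt_two (α := ℝ))).1 (hD.trans (le_trans ?_ a8))
    nlinarith [mul_le_mul_of_nonneg_left (pow_le_pow_left₀ (by norm_num) hΔ 2) hΔ0.le]
  refine ⟨j, by omega, i, by omega, m, by omega, a8, hm1, hm2.le, ?_⟩
  have a9 := not_le.1 (Nat.find_min hex (m := j - 1) (by omega))
  refine a9.le.trans (mul_le_mul_of_nonneg_right ?_ (zs_nonneg t))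
  have b1 : (i : ℝ) ≤ (j - 1 : ℕ) + D := by exact_mod_cast (by omega : i ≤ j - 1 + D)
  have b2 : D * Real.log 2 ≤ 2 * Real.log Δ := by
    have c1 := Real.log_le_log (by positivity) hD
    rw [Real.log_pow, Real.log_mul two_ne_zero hΔ0.ne'] at c1
    linarith [Real.log_le_log two_pos hΔ]
  have b3 : Real.exp ((j - 1 : ℕ) * Real.log 2 * (1 / 2 - σ)) ≤ Δ * (2 ^ i) ^ (1 / 2 - σ) := by
    rw [two_pow_rpow, ← Real.exp_log hΔ0, ← Real.exp_add]
    refine Real.exp_le_exp.2 ?_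
    have c1 := mul_le_mul_of_nonneg_right (mul_le_mul_of_nonneg_right b1 hl2.le)
      (by linarith : 0 ≤ σ - 1 / 2)
    have c2 := mul_le_mul b2 (by linarith : σ - 1 / 2 ≤ 1 / 2) (by linarith)
      (by linarith [Real.log_nonneg (by linarith : 1 ≤ Δ)])
    linarith
  rw [sq, mul_assoc Δ]
  exact mul_le_mul (by linarith [Real.exp_pos (c ^ 2)]) b3 (Real.exp_pos _).le hΔ0.le

theorem levels {δ σ A M : ℝ} (h : Adm δ σ A) (m4 : Mom 4 1) (m6 : Mom (62 / 9) (4 / 3))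
    (m12 : Mom 12 (2 - δ)) (mA : Mom A M) (hM1 : 1 ≤ M)
    (hM : M ≤ 1 + 25 / 52 * (A * (σ - 1 / 2))) {ε : ℝ} (hε : 0 < ε) :
    ∀ᶠ T : ℝ in atTop, ∀ V : ℝ, T ^ ε ≤ V →
      volume.real ({t | V ≤ zo σ t} ∩ Set.Icc (T / 2) T) * V ^ A ≤ T ^ (1 + ε) := by
  obtain ⟨K, hL⟩ := lev_bound h m4 m6 m12
  obtain ⟨η, hη, hη1, hη2⟩ : ∃ η : ℝ, 0 < η ∧ η ≤ 1 / 10 ∧ η * (K + 24 : ℕ) ≤ ε := by
    refine ⟨min (1 / 10) (ε / (K + 24 : ℕ)), by positivity, min_le_left _ _, ?_⟩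
    rw [← le_div_iff₀ (by positivity)]
    exact min_le_right _ _
  obtain ⟨C₁, h1, hL⟩ := hL η hη
  obtain ⟨C₂, h2, mA⟩ := mA.cheb (by linarith [h.a0]) (by linarith [h.a9]) hM1 hη
  obtain ⟨C₃, h3, hA⟩ := apx h.s0 (by linarith [h.s1])
  have hc : 2 ≤ 2 + 2 / η := by have : 0 < 2 / η := by positivity
                                linarith
  filter_upwards [(tendsto_rpow_atTop hη).eventually_ge_atTop
    (C₁ + C₂ + (16 + 8 * Real.exp ((2 + 2 / η) ^ 2) + 2 * C₃)), eventually_ge_atTop 2,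
    (isLittleO_log_rpow_atTop hη).bound (c := 1 / 16) (by norm_num)] with T hCΔ hT hlog V hV
  have hT0 : 0 < T := by linarith
  have hT1 : 1 ≤ T := by linarith
  have hE := Real.exp_pos ((2 + 2 / η) ^ 2)
  have hl0 : 0 ≤ Real.log T := Real.log_nonneg hT1
  rw [Real.norm_of_nonneg hl0, Real.norm_of_nonneg (by positivity)] at hlog
  have hpow : ∀ k : ℕ, k ≤ K + 24 → (T ^ η) ^ k ≤ T ^ ε := fun k hk => by
    rw [← Real.rpow_natCast, ← Real.rpow_mul hT0.le]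
    refine Real.rpow_le_rpow_of_exponent_le hT1 (le_trans ?_ hη2)
    exact mul_le_mul_of_nonneg_left (by exact_mod_cast hk) hη.le
  have hq : Real.log (T ^ η) = η * Real.log T := Real.log_rpow hT0 η
  have hR : Reg η T (T ^ η) := ⟨by linarith, by
    simpa using Real.rpow_le_rpow_of_exponent_le hT1 (by linarith : η ≤ 1), le_rfl⟩
  generalize T ^ η = Δ at *
  have hΔ := hR.two
  have hΔ0 := hR.pos
  have hΔ1 := hR.one_le
  have hV0 : 0 < V := lt_of_lt_of_le (by positivity) hV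
  have hl2 := Real.log_two_gt_d9
  have hq2 : Real.log 2 ≤ Real.log Δ := Real.log_le_log two_pos hΔ
  obtain ⟨D', hD1, hD2⟩ := exists_nat_pow_near hΔ1 one_lt_two
  obtain ⟨I, hI1, hI2⟩ := exists_nat_pow_near
    (Real.one_le_rpow hT1 (by norm_num : (0 : ℝ) ≤ 25 / 52)) one_lt_two
  have lD1 := Real.log_le_log (by positivity) hD1
  have lD2 := Real.log_le_log hΔ0 hD2.le
  have lI1 := Real.log_le_log (by positivity) hI1
  have lI2 := Real.log_le_log (by positivity) hI2.le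
  rw [Real.log_pow] at lD1 lD2 lI1 lI2
  rw [Real.log_rpow hT0] at lI1 lI2
  have hηl := mul_le_mul_of_nonneg_right hη1 hl0
  obtain ⟨J, rfl⟩ : ∃ J, I = J + (D' + 1) := by
    refine ⟨I - (D' + 1), ?_⟩
    have : ((D' + 1 : ℕ) : ℝ) < (I + 1 : ℕ) := by
      refine lt_of_mul_lt_mul_right ?_ (by linarith : 0 ≤ Real.log 2)
      push_cast at lI2 ⊢
      linarith
    have := Nat.cast_lt.1 this
    omega
  have hI : 16 * ((J + (D' + 1) : ℕ) : ℝ) ≤ Δ := by
    have : (0 : ℝ) ≤ (J + (D' + 1) : ℕ) := Nat.cast_nonneg _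
    nlinarith
  have hJ : (J : ℝ) * Real.log 2 ≤ Real.log T := by
    have : (0 : ℝ) ≤ D' := Nat.cast_nonneg _
    push_cast at lI1
    nlinarith
  set κ : ℝ := 25 / 52 * (σ - 1 / 2) with hκ
  set W₀ : Set ℝ := {t | T / 2 ≤ t ∧ t ≤ T ∧ V * T ^ κ / Δ ^ 2 ≤ zs t} with hW₀
  set n := J + (D' + 1) + 1 with hn
  set W : ℕ × ℕ × ℕ → Set ℝ := fun x =>
    lev T (2 ^ x.2.1) 2 (bb σ (x.1 * Real.log 2) x.2.1) (2 ^ x.2.2 * (V * (2 ^ x.2.1) ^ σ / Δ)) 2 ∩
      {t | T / 2 ≤ t ∧ V ≤ Δ ^ 2 * (2 ^ x.2.1) ^ (1 / 2 - σ) * zs t} with hW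
  set F := (range n ×ˢ range n ×ˢ range n).filter fun x => Δ ^ 3 ≤ 2 ^ x.2.1 with hF
  have hsub : {t | V ≤ zo σ t} ∩ Set.Icc (T / 2) T ⊆ W₀ ∪ ⋃ x ∈ F, W x := by
    rintro t ⟨hz, ht1, ht2⟩
    rcases cover (D := D' + 1) (J := J) h.s0 h.s1 hc h3 hA hT ht1 hΔ (by linarith)
      (by rw [pow_succ']; linarith)
      (by rw [← Real.log_le_log_iff (by positivity) hT0, Real.log_pow]; exact hJ)
      (by
        have a1 : 2 / η * Real.log Δ = 2 * Real.log T := by rw [hq]; field_simp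
        have a2 := mul_le_mul_of_nonneg_left lD2 (by positivity : 0 ≤ 2 / η)
        rw [add_sub_cancel_left]
        linarith)
      hI ((hpow 5 (by omega)).trans hV) hz with a | ⟨j, hj, i, hi, m, hm, a1, a2, a3, a4⟩
    · refine Or.inl ⟨ht1, ht2, ?_⟩
      have b1 : Real.exp (J * Real.log 2 * (1 / 2 - σ)) * T ^ κ ≤ Δ := by
        rw [Real.rpow_def_of_pos hT0, ← Real.exp_add, ← Real.exp_log hΔ0]
        refine Real.exp_le_exp.2 ?_
        have c1 : 25 / 52 * Real.log T - J * Real.log 2 ≤ 3 * Real.log Δ := by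
          rw [hn] at lI2; push_cast at lI2; linarith
        have c2 := mul_le_mul_of_nonneg_right c1 (by linarith [h.s0] : 0 ≤ σ - 1 / 2)
        have c3 := mul_le_mul_of_nonneg_left (by linarith [h.s1] : σ - 1 / 2 ≤ 1 / 3)
          (by linarith : 0 ≤ Real.log Δ)
        rw [hκ]
        linarith
      rw [div_le_iff₀ (by positivity)]
      calc V * T ^ κ ≤ C₃ * Real.exp (J * Real.log 2 * (1 / 2 - σ)) * zs t * T ^ κ :=
            mul_le_mul_of_nonneg_right a (by positivity)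
        _ = zs t * (C₃ * (Real.exp (J * Real.log 2 * (1 / 2 - σ)) * T ^ κ)) := by ring
        _ ≤ zs t * (Δ * Δ) := mul_le_mul_of_nonneg_left
            (mul_le_mul (by linarith) b1 (by positivity) hΔ0.le) (zs_nonneg t)
        _ = _ := by ring
    · refine Or.inr (Set.mem_iUnion₂.2 ⟨(j, i, m), ?_, ⟨⟨by linarith, ht2⟩, a2, a3⟩, ht1, a4⟩)
      simp only [hF, mem_filter, mem_product, mem_range]
      exact ⟨⟨hj, hi, hm⟩, a1⟩
  have hfin : W₀ ∪ ⋃ x ∈ F, W x ⊆ Set.Icc 0 T := by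
    rintro t (ht | ht)
    · exact ⟨by linarith [ht.1], ht.2.1⟩
    · obtain ⟨x, -, hx⟩ := Set.mem_iUnion₂.1 ht
      exact hx.1.1
  have s1 := ((measureReal_mono hsub (volume_lt_top hfin).ne).trans
    (measureReal_union_le _ _)).trans (add_le_add le_rfl (measureReal_biUnion_finset_le F W))
  have hVA : 0 ≤ V ^ A := by positivity
  have s2 : volume.real W₀ * V ^ A ≤ Δ ^ 20 * T := by
    have a1 := mA T Δ (V * T ^ κ / Δ ^ 2) W₀ hR (by linarith) (by positivity)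
      (measurableSet_Ici.inter (measurableSet_Iic.inter
        (measurableSet_le measurable_const measurable_zs))) fun t ht => ht
    have a2 : (Δ ^ 2) ^ A ≤ Δ ^ 18 := by
      have := Real.rpow_le_rpow_of_exponent_le (one_le_pow₀ hΔ1 (n := 2))
        (show A ≤ (9 : ℕ) by exact_mod_cast h.a9)
      rwa [Real.rpow_natCast, ← pow_mul] at this
    have a3 : T ^ M ≤ T * T ^ (κ * A) := by
      rw [← Real.rpow_one_add' hT0.le (by
        have := mul_nonneg (by linarith [h.s0] : 0 ≤ κ) (by linarith [h.a0] : 0 ≤ A)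
        linarith)]
      exact Real.rpow_le_rpow_of_exponent_le hT1 (by rw [hκ]; linarith)
    rw [Real.div_rpow (by positivity) (by positivity), Real.mul_rpow hV0.le (by positivity),
      ← Real.rpow_mul hT0.le, ← mul_div_assoc, div_le_iff₀ (by positivity), ← mul_assoc] at a1
    refine le_of_mul_le_mul_right (a1.trans ?_) (by positivity : 0 < T ^ (κ * A))
    calc _ ≤ Δ ^ 2 * (T * T ^ (κ * A)) * Δ ^ 18 := by gcongr
      _ = _ := by ring
  have s3 : ∀ x ∈ F, volume.real (W x) * V ^ A ≤ Δ ^ K * T := fun x hx => by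
    simp only [hF, mem_filter, mem_product, mem_range] at hx
    refine hL T Δ (2 ^ x.2.1) (2 ^ x.2.2 * (V * (2 ^ x.2.1) ^ σ / Δ)) V _ (W x) hR (by linarith)
      hx.2 (le_trans (pow_le_pow_right₀ one_le_two (by omega)) hI1) hV0 ?_
      (norm_bb_le (by linarith [h.s0]) _ _) ((measurableSet_lev _ _ _ _ _ _).inter
        (measurableSet_Ici.inter (measurableSet_le measurable_const
          (measurable_zs.const_mul _)))) Set.inter_subset_left fun t ht => ht.2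
    rw [mul_left_comm, mul_div_cancel₀ _ hΔ0.ne']
    exact le_mul_of_one_le_left (by positivity) (one_le_pow₀ one_le_two)
  have s4 : (F.card : ℝ) ≤ Δ ^ 3 := by
    have a1 : F.card ≤ n ^ 3 := (card_filter_le _ _).trans (by simp [pow_succ, mul_assoc])
    have a2 : (n : ℝ) ≤ Δ := by rw [hn, Nat.cast_succ]; linarith
    exact le_trans (by exact_mod_cast a1) (pow_le_pow_left₀ (Nat.cast_nonneg n) a2 3)
  have s5 := sum_le_card_nsmul _ _ _ s3
  rw [← sum_mul, nsmul_eq_mul] at s5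
  have s6 := mul_le_mul_of_nonneg_right s1 hVA
  have s7 := mul_le_mul_of_nonneg_right s4 (by positivity : 0 ≤ Δ ^ K * T)
  have s8 : Δ ^ 20 ≤ Δ ^ (K + 23) := pow_le_pow_right₀ hΔ1 (by omega)
  have s9 : Δ ^ 3 * Δ ^ K ≤ Δ ^ (K + 23) := by
    rw [← pow_add]; exact pow_le_pow_right₀ hΔ1 (by omega)
  have s10 : 2 * Δ ^ (K + 23) ≤ T ^ ε := by
    refine le_trans ?_ (hpow (K + 24) le_rfl)
    rw [pow_succ' Δ (K + 23)]
    exact mul_le_mul_of_nonneg_right hΔ (by positivity)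
  rw [Real.rpow_add hT0, Real.rpow_one]
  have s11 := mul_le_mul_of_nonneg_right (show Δ ^ 20 + Δ ^ 3 * Δ ^ K ≤ T ^ ε by linarith) hT0.le
  linarith

end Pool.Agent.MP_3d0d30_nt.Off

end
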