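import Pool.Agent.MP_db1c88_nt.z94.Red

/-! Moments of zeta off the critical line: the exponent table. -/

set_option autoImplicit false

namespace Pool.Agent.MP_3d0d30_nt.Off

open Pool.Agent.MP_db1c88_nt.z94

/-- the admissible pairs `(σ, A)` -/
structure Adm (δ σ A : ℝ) : Prop where
  d0 : 0 < δ
  d1 : δ ≤ 1 / 100
  s0 : 1 / 2 < σ
  s1 : σ ≤ 5 / 8
  a0 : 4 ≤ A
  c1 : A * (37 - 50 * σ) ≤ 48
  c2 : A * (40 - 53 * σ) ≤ 56
  c3 : A * (17 - 22 * σ) ≤ 26 + δ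

theorem Adm.a1 {δ σ A : ℝ} (h : Adm δ σ A) : A ≤ 8 + 4 * δ / 13 := by
  have := mul_nonneg (by linarith [h.a0] : 0 ≤ A) (sub_nonneg.2 h.s1)
  linarith [h.c3]

theorem Adm.a9 {δ σ A : ℝ} (h : Adm δ σ A) : A ≤ 9 := by linarith [h.a1, h.d1]

theorem Adm.low {δ σ A w : ℝ} (h : Adm δ σ A) (hw : w ≤ 37 / 50) : A * (w - σ) ≤ 4 * w - 2 := by
  have := mul_nonneg (sub_nonneg.2 h.a0) (sub_nonneg.2 hw)
  linarith [h.c1]

theorem Adm.mid {δ σ A w : ℝ} (h : Adm δ σ A) (h1 : 37 / 50 ≤ w) (h2 : w ≤ 40 / 53) :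
    A * (w - σ) ≤ 256 / 39 * w - 152 / 39 := by
  rcases le_total A (256 / 39) with h3 | h3
  · have := mul_nonneg (sub_nonneg.2 h3) (sub_nonneg.2 h1)
    linarith [h.c1]
  · have := mul_nonneg (sub_nonneg.2 h3) (sub_nonneg.2 h2)
    linarith [h.c2]

theorem Adm.high {δ σ A w : ℝ} (h : Adm δ σ A) (h1 : 40 / 53 ≤ w) : A * (w - σ) ≤ 12 * w - 8 := by
  have := mul_nonneg (by linarith [h.a9] : 0 ≤ 12 - A) (sub_nonneg.2 h1)
  linarith [h.c2]

theorem Adm.top {δ σ A w : ℝ} (h : Adm δ σ A) (h1 : 40 / 53 ≤ w) (h2 : w ≤ 1) :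
    A * (w - σ) ≤ 37 / 6 * w - 43 / 12 ∨ A * (w - σ) ≤ 8 * w - 5 + δ := by
  have d0 := h.d0
  have d1 := h.d1
  rcases le_total A (37 / 6) with h3 | h3
  · left
    have := mul_nonneg (sub_nonneg.2 h3) (sub_nonneg.2 h1)
    linarith [h.c2]
  have key : A * (17 / 22 - 6 * δ / 11 - σ) ≤ 13 / 11 - 37 * δ / 11 := by
    rcases le_total A (25 / 4) with h4 | h4
    · have := mul_nonneg (sub_nonneg.2 h4) (by linarith : 0 ≤ 17 / 22 - 6 * δ / 11 - 40 / 53)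
      linarith [h.c2]
    · have := mul_nonneg (sub_nonneg.2 h4) d0.le
      linarith [h.c3]
  rcases le_total w (17 / 22 - 6 * δ / 11) with h4 | h4
  · left
    have := mul_nonneg (sub_nonneg.2 h3) (sub_nonneg.2 h4)
    linarith
  right
  rcases le_total A 8 with h5 | h5
  · have := mul_nonneg (sub_nonneg.2 h5) (sub_nonneg.2 h4)
    linarith
  · have := mul_nonneg (sub_nonneg.2 h5) (sub_nonneg.2 h2)
    linarith [h.c3, h.a1]

/-- the exponent of the moment on the critical line is paid by the length `T ^ (25 / 52)` -/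
theorem Adm.cut {δ σ A : ℝ} (h : Adm δ σ A) :
    max (1 + 3 * (A / 2 - 2) / 13) (2 - 6 * (6 - A / 2) / 23) ≤ 1 + 25 / 52 * (A * (σ - 1 / 2)) := by
  refine max_le (by linarith [h.c1]) ?_
  rcases le_total A (62 / 9) with h1 | h1
  · linarith [h.c1]
  · linarith [h.c3, h.d1]

theorem table {δ σ A s τ w u r : ℝ} (h : Adm δ σ A) (hs : 0 ≤ s) (hτ : 52 / 25 ≤ τ) (hu : w ≤ u)
    (hw : w ≤ 1) (h4 : r + 4 * (w - 1 / 2) ≤ s + τ)
    (h6 : r + 62 / 9 * (w - 1 / 2) ≤ s + 4 / 3 * τ)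
    (h12 : r + 12 * (w - 1 / 2) ≤ s + 2 * τ - 2 * δ)
    (hH : r ≤ s + max (4 - 4 * u) (τ + 8 - 12 * u))
    (hA : Alt s τ 2 1 r (2 * u) u (τ + 2) 0) : r + A * (w - σ) ≤ s + τ := by
  rcases le_total w (37 / 50) with h1 | h1
  · linarith [h.low h1]
  rcases le_total w (40 / 53) with h2 | h2
  · have h3 := h.mid h1 h2
    unfold Alt at hA
    rcases hA with hA | hA | ⟨hA, -⟩ | ⟨m, rfl | rfl | rfl, hA | hA⟩ <;> linarith
  rcases max_choice (4 - 4 * u) (τ + 8 - 12 * u) with e | e <;> rw [e] at hH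
  · rcases h.top h2 hw with h3 | h3 <;> linarith
  · linarith [h.high h2]

end Pool.Agent.MP_3d0d30_nt.Off
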