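import Pool.Agent.MP_3d0d30_nt.Off.Zs
import Pool.Agent.MP_3d0d30_nt.Off.Tab

/-! Moments of zeta off the critical line: large values of one block. -/

set_option autoImplicit false

noncomputable section

namespace Pool.Agent.MP_3d0d30_nt.Off

open MeasureTheory Filter Set
open Pool.Agent.MP_db1c88_nt.z94 Pool.Agent.MP_db1c88_nt.z94.C2

/-- the two large value estimates for the square of a polynomial, in logarithmic form -/
theorem lv_facts : ∃ K : ℕ, ∀ ε : ℝ, 0 < ε → ∃ C : ℝ, 1 ≤ C ∧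
    ∀ (T Δ n U : ℝ) (b : ℕ → ℂ) (W : Set ℝ), Reg ε T Δ → C ≤ Δ → Δ ^ 3 ≤ n → n ^ 2 ≤ T → 0 < U →
      (∀ m, ‖b m‖ ≤ 1) → MeasurableSet W → W ⊆ lev T n 2 b U 2 → 0 < volume.real W →
      Real.logb n (volume.real W) ≤ K * Real.logb n Δ +
        max (4 - 4 * Real.logb n U) (Real.logb n T + 8 - 12 * Real.logb n U) ∧
      Alt (K * Real.logb n Δ) (Real.logb n T) 2 1 (Real.logb n (volume.real W))
        (2 * Real.logb n U) (Real.logb n U) (Real.logb n T + 2) 0 := by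
  obtain ⟨K₁, hC⟩ := core
  obtain ⟨K₃, hH⟩ := hux
  refine ⟨K₁ + K₃ + 700, fun ε hε => ?_⟩
  obtain ⟨C₁, h1, hC⟩ := hC ε hε (2 ^ 2) (by norm_num)
  obtain ⟨C₃, -, hH⟩ := hH ε hε (2 ^ 2) (2 ^ 2) (by norm_num) (by norm_num)
  obtain ⟨C₂, -, hP⟩ := pow_stmt 2 ε hε
  refine ⟨max C₁ (max C₂ C₃), le_max_of_le_left h1,
    fun T Δ n U b W hR hCΔ hΔn hnT hU hb hW hlev h0 => ?_⟩
  simp only [max_le_iff] at hCΔ
  obtain ⟨hC₁, hC₂, hC₃⟩ := hCΔ
  have hΔ := hR.two
  have hΔ1 := hR.one_le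
  have hT := hR.T_pos
  have hT2 := hR.two_le_T
  have hn : 1 < n := by nlinarith [pow_le_pow_left₀ (by norm_num) hΔ 3]
  have hn0 : 0 < n := by linarith
  have hWT : W ⊆ Set.Icc 0 T := hlev.trans (lev_subset _ _ _ _ _ _)
  obtain ⟨d, hd, hd'⟩ := hP T Δ n b 2 hR hC₂ hn.le le_rfl (by nlinarith) hb
  obtain ⟨e, he, he'⟩ := hP T Δ n b 1 hR hC₂ hn.le one_le_two (by nlinarith) hb
  have hl2 : W ⊆ lev T (n ^ 2) (2 ^ 2) d (U ^ 2 / Δ ^ (2 * 2)) (2 ^ 2) := fun t ht => by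
    refine ⟨hWT ht, ?_, ?_⟩
    · rw [div_le_iff₀ (by positivity), hd']
      exact pow_le_pow_left₀ hU.le (hlev ht).2.1 _
    · rw [← mul_div_assoc, le_div_iff₀ (by positivity), hd', ← mul_pow]
      exact pow_le_pow_left₀ (norm_nonneg _) (hlev ht).2.2 _
  have hl1 : ∀ t ∈ W, U / Δ ^ (2 * 2) ≤ ‖DP (blk (n ^ 1) (2 ^ 2)) e t‖ := fun t ht => by
    rw [div_le_iff₀ (by positivity), he', pow_one]
    exact (hlev ht).2.1
  have hln : Real.logb n n = 1 := Real.logb_self_eq_one hn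
  have hs : 0 ≤ Real.logb n Δ := Real.logb_nonneg hn hΔ1
  have hK₁ : 0 ≤ K₁ * Real.logb n Δ := by positivity
  have hK₃ : 0 ≤ K₃ * Real.logb n Δ := by positivity
  constructor
  · have h2 := hH T Δ (n ^ 2) _ d hR (one_le_pow₀ hn.le) (by nlinarith)
      (by positivity : 0 < U ^ 2 / Δ ^ (2 * 2)) hd
    have h3 := ((mul_le_mul_of_nonneg_right (measureReal_mono hl2
      (volume_lt_top (lev_subset _ _ _ _ _ _)).ne) (by positivity)).trans h2).trans
      (mul_le_mul_of_nonneg_right (slop_le hΔ1 le_rfl hC₃ le_rfl) (by positivity))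
    have h4 := two_log hn hΔ h0 (by positivity) (by positivity) (by positivity) h3
    simp (disch := positivity) only [Real.logb_mul, Real.logb_div, Real.logb_pow, hln] at h4
    have h5 := le_max_left (4 - 4 * Real.logb n U) (Real.logb n T + 8 - 12 * Real.logb n U)
    have h6 := le_max_right (4 - 4 * Real.logb n U) (Real.logb n T + 8 - 12 * Real.logb n U)
    push_cast at h4 ⊢
    rw [← sub_le_iff_le_add', le_max_iff] at h4
    rcases h4 with h4 | h4 <;> linarith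
  · have h2 := hC T Δ (n ^ 2) (n ^ 1) (U ^ 2 / Δ ^ (2 * 2)) (U / Δ ^ (2 * 2)) (Δ * (T * n ^ 2)) Δ
      d e W hR hC₁ (one_le_pow₀ hn.le) (by nlinarith) hnT (by positivity) (by positivity)
      (by
        have a1 := mul_le_mul_of_nonneg_right hnT (sq_nonneg n)
        have a2 := mul_le_mul_of_nonneg_right hΔ (by positivity : 0 ≤ T * n ^ 2)
        nlinarith)
      (by rw [pow_one, div_self (by positivity)]; linarith) hd he hW hWT h0 fun t ht =>
        ⟨(hl2 ht).2.1, (hl2 ht).2.2, hl1 t ht⟩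
    have h3 := alt_of_core hn (by positivity) hT (by positivity) (by positivity) h0
      (by positivity) (by positivity) (by positivity) (by positivity) h2
    simp (disch := positivity) only [Real.logb_mul, Real.logb_div, Real.logb_pow, hln,
      Nat.cast_ofNat, Nat.cast_one, mul_one] at h3
    refine h3.mono' (5 * Real.logb n Δ) (by positivity) ?_ ?_ ?_ ?_ ?_ <;> push_cast <;> linarith

/-- the moment bounds on the critical line that are used -/
def Mom (p M : ℝ) : Prop := ∀ ε : ℝ, 0 < ε → ∃ C : ℝ, ∀ T : ℝ, 1 ≤ T →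
  ∫ t in (0 : ℝ)..T, C2.ff t ^ p ≤ C * T ^ (M + ε)

theorem Mom.cheb {p M : ℝ} (h : Mom p M) (hp : 1 ≤ p) (hp' : p ≤ 12) (hM : 1 ≤ M) {ε : ℝ}
    (hε : 0 < ε) : ∃ C : ℝ, 1 ≤ C ∧ ∀ (T Δ X : ℝ) (W : Set ℝ), Reg ε T Δ → C ≤ Δ → 0 < X →
      MeasurableSet W → (∀ t ∈ W, T / 2 ≤ t ∧ t ≤ T ∧ X ≤ zs t) →
      volume.real W * X ^ p ≤ Δ ^ 2 * T ^ M := by
  obtain ⟨C₀, h⟩ := h ε hε
  obtain ⟨C, h1, h⟩ := Off.cheb hp hp' (by linarith) h
  refine ⟨C, h1, fun T Δ X W hR hC hX hW hz => (h T X W hR.two_le_T hX hW hz).trans ?_⟩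
  have hT := hR.T_pos
  rw [Real.rpow_add hT, mul_comm (T ^ M), ← mul_assoc, sq]
  exact mul_le_mul_of_nonneg_right (mul_le_mul hC hR.pow (by positivity) hR.pos.le) (by positivity)

theorem lev_bound {δ σ A : ℝ} (h : Adm δ σ A) (m4 : Mom 4 1) (m6 : Mom (62 / 9) (4 / 3))
    (m12 : Mom 12 (2 - δ)) : ∃ K : ℕ, ∀ ε : ℝ, 0 < ε → ∃ C : ℝ, 1 ≤ C ∧
    ∀ (T Δ n U V : ℝ) (b : ℕ → ℂ) (W : Set ℝ), Reg ε T Δ → C ≤ Δ → Δ ^ 3 ≤ n →
      n ≤ T ^ (25 / 52 : ℝ) → 0 < V → V * n ^ σ ≤ Δ * U → (∀ m, ‖b m‖ ≤ 1) → MeasurableSet W →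
      W ⊆ lev T n 2 b U 2 → (∀ t ∈ W, T / 2 ≤ t ∧ V ≤ Δ ^ 2 * n ^ (1 / 2 - σ) * zs t) →
      volume.real W * V ^ A ≤ Δ ^ K * T := by
  obtain ⟨K, hL⟩ := lv_facts
  refine ⟨K + 20, fun ε hε => ?_⟩
  obtain ⟨C₁, h1, hL⟩ := hL ε hε
  obtain ⟨C₂, -, m4⟩ := m4.cheb (by norm_num) (by norm_num) le_rfl hε
  obtain ⟨C₃, -, m6⟩ := m6.cheb (by norm_num) (by norm_num) (by norm_num) hε
  obtain ⟨C₄, -, m12⟩ := m12.cheb (by norm_num) le_rfl (by linarith [h.d1]) hε
  refine ⟨max C₁ (max C₂ (max C₃ C₄)), le_max_of_le_left h1,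
    fun T Δ n U V b W hR hCΔ hΔn hnT hV hVU hb hW hlev hz => ?_⟩
  simp only [max_le_iff] at hCΔ
  obtain ⟨hC₁, hC₂, hC₃, hC₄⟩ := hCΔ
  have hΔ := hR.two
  have hΔ1 := hR.one_le
  have hΔ0 := hR.pos
  have hT := hR.T_pos
  have hT2 := hR.two_le_T
  have hn : 1 < n := by nlinarith [pow_le_pow_left₀ (by norm_num) hΔ 3]
  have hn0 : 0 < n := by linarith
  rcases (measureReal_nonneg (μ := volume) (s := W)).eq_or_lt with h0 | h0
  · rw [← h0, zero_mul]; positivity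
  have hU : 0 < U := (mul_pos_iff_of_pos_left hΔ0).1 (lt_of_lt_of_le (by positivity) hVU)
  have hln : Real.logb n n = 1 := Real.logb_self_eq_one hn
  have hs : 0 ≤ Real.logb n Δ := Real.logb_nonneg hn hΔ1
  have hτ : 52 / 25 ≤ Real.logb n T := by
    have := Real.logb_le_logb_of_le hn hn0 hnT
    rw [hln, Real.logb_rpow_eq_mul_logb_of_pos hT] at this
    linarith
  have hn2 : n ^ 2 ≤ T := by
    rw [← Real.rpow_natCast, ← Real.le_logb_iff_rpow_le hn hT]
    push_cast; linarith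
  obtain ⟨hH, hA⟩ := hL T Δ n U b W hR hC₁ hΔn hn2 hU hb hW hlev h0
  obtain ⟨t₀, ht₀⟩ : W.Nonempty := by
    rw [nonempty_iff_ne_empty]; rintro rfl; simp at h0
  have hUn : U ≤ Δ * n := by
    have a1 := (hlev ht₀).2.1.trans (norm_DP_le (blk n 2) hb t₀)
    have a2 := card_blk_le hn.le (c := 2) (by norm_num)
    nlinarith
  have l1 := Real.logb_le_logb_of_le hn hU hUn
  have l2 := Real.logb_le_logb_of_le hn (by positivity) hVU
  have hX : 0 < V / (Δ ^ 2 * n ^ (1 / 2 - σ)) := by positivity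
  have hz' : ∀ t ∈ W, T / 2 ≤ t ∧ t ≤ T ∧ V / (Δ ^ 2 * n ^ (1 / 2 - σ)) ≤ zs t := fun t ht =>
    ⟨(hz t ht).1, (hlev ht).1.2, by rw [div_le_iff₀' (by positivity)]; exact (hz t ht).2⟩
  have lX : Real.logb n (V / (Δ ^ 2 * n ^ (1 / 2 - σ))) =
      Real.logb n V - 2 * Real.logb n Δ - (1 / 2 - σ) := by
    rw [Real.logb_div (by positivity) (by positivity), Real.logb_mul (by positivity)
      (by positivity), Real.logb_pow, Real.logb_rpow hn0 hn.ne']
    push_cast; ring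
  have l4 := Real.logb_le_logb_of_le hn (by positivity) (m4 T Δ _ W hR hC₂ hX hW hz')
  have l6 := Real.logb_le_logb_of_le hn (by positivity) (m6 T Δ _ W hR hC₃ hX hW hz')
  have l12 := Real.logb_le_logb_of_le hn (by positivity) (m12 T Δ _ W hR hC₄ hX hW hz')
  rw [Real.logb_mul (by positivity) (by positivity), Real.logb_mul (by positivity) (by positivity),
    Real.logb_rpow_eq_mul_logb_of_pos hX, Real.logb_rpow_eq_mul_logb_of_pos hT, Real.logb_pow, lX]
    at l4 l6 l12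
  rw [Real.logb_mul (by positivity) (by positivity), hln] at l1
  rw [Real.logb_mul (by positivity) (by positivity), Real.logb_mul (by positivity) (by positivity),
    Real.logb_rpow hn0 hn.ne'] at l2
  push_cast at l4 l6 l12
  have hK : 0 ≤ K * Real.logb n Δ := by positivity
  have hδ := mul_le_mul_of_nonneg_left (show 2 ≤ Real.logb n T by linarith) h.d0.le
  have fin := table (s := (K + 2) * Real.logb n Δ) (u := Real.logb n U) (r := Real.logb n (volume.real W))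
    (w := Real.logb n V + σ - 2 * Real.logb n Δ) h (by linarith) hτ (by linarith) (by linarith)
    (by linarith) (by linarith) (by linarith) (by linarith)
    (hA.mono' 0 le_rfl (by linarith) (by linarith) (by linarith) (by linarith) (by linarith))
  rw [← Real.logb_le_logb hn (by positivity) (by positivity),
    Real.logb_mul (by positivity) (by positivity), Real.logb_mul (by positivity) (by positivity),
    Real.logb_rpow_eq_mul_logb_of_pos hV, Real.logb_pow]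
  have := mul_le_mul_of_nonneg_right h.a9 hs
  push_cast
  linarith

end Pool.Agent.MP_3d0d30_nt.Off

end
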