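import Pool.Agent.MP_3d0d30_nt.Off.Cover
import Pool.Agent.MP_3d0d30_nt.Six.All16
import Pool.Agent.MP_3d0d30_nt.Six.All12

/-! Moments of zeta off the critical line: from large values to moments, and the assembly. -/

set_option autoImplicit false

noncomputable section

namespace Pool.Agent.MP_3d0d30_nt.Off

open MeasureTheory Filter Finset
open Pool.Agent.MP_db1c88_nt.z94

theorem dyadic {g : ℝ → ℝ} {m C : ℝ} (c1 : Continuous g) (hnn : ∀ t, 0 ≤ g t) (hm : 1 ≤ m)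
    (h : ∀ᶠ T : ℝ in atTop, ∫ t in (T / 2)..T, g t ≤ C * T ^ m) :
    ∃ C : ℝ, ∀ T : ℝ, 1 ≤ T → ∫ t in (0 : ℝ)..T, g t ≤ C * T ^ m := by
  obtain ⟨T₀, h⟩ := eventually_atTop.1 h
  obtain ⟨J0, hJ⟩ := pow_unbounded_of_one_lt T₀ (by norm_num : (1 : ℝ) < 2)
  have hmono : ∀ a b : ℝ, 0 ≤ a → a ≤ b → ∫ t in (0 : ℝ)..a, g t ≤ ∫ t in (0 : ℝ)..b, g t :=
    fun a b ha hab => intervalIntegral.integral_mono_interval le_rfl ha hab
      (Filter.Eventually.of_forall hnn) (c1.intervalIntegrable _ _)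
  set D : ℝ := max (2 * C) (∫ t in (0 : ℝ)..(2 ^ J0), g t) with hD
  have hD0 : 0 ≤ D :=
    (intervalIntegral.integral_nonneg (by positivity) fun t _ => hnn t).trans (le_max_right _ _)
  have hsmall : ∀ j : ℕ, j ≤ J0 → ∫ t in (0 : ℝ)..(2 ^ j), g t ≤ D * ((2 : ℝ) ^ j) ^ m := by
    intro j hj
    have e1 := hmono (2 ^ j) (2 ^ J0) (by positivity) (pow_le_pow_right₀ (by norm_num) hj)
    have e2 : 1 ≤ ((2 : ℝ) ^ j) ^ m :=
      Real.one_le_rpow (one_le_pow₀ (by norm_num)) (by linarith)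
    have e3 : (∫ t in (0 : ℝ)..(2 ^ J0), g t) ≤ D := le_max_right _ _
    nlinarith
  have hall : ∀ j : ℕ, ∫ t in (0 : ℝ)..(2 ^ j), g t ≤ D * ((2 : ℝ) ^ j) ^ m := by
    intro j
    induction j with
    | zero => exact hsmall 0 (Nat.zero_le _)
    | succ j ih =>
      by_cases hj : j + 1 ≤ J0
      · exact hsmall _ hj
      · have e1 := h (2 * 2 ^ j) (hJ.le.trans (by
          rw [← pow_succ']; exact pow_le_pow_right₀ one_le_two (by omega)))
        rw [mul_div_cancel_left₀ _ two_ne_zero] at e1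
        have e2 := intervalIntegral.integral_add_adjacent_intervals (μ := volume)
          (f := g) (a := 0) (b := 2 ^ j) (c := 2 * 2 ^ j)
          (c1.intervalIntegrable _ _) (c1.intervalIntegrable _ _)
        have e3 : (2 : ℝ) ≤ 2 ^ m := by
          simpa using Real.rpow_le_rpow_of_exponent_le (one_le_two (α := ℝ)) hm
        have e4 : 0 ≤ ((2 : ℝ) ^ j) ^ m := by positivity
        have e5 : 2 * C * (2 ^ m * ((2 : ℝ) ^ j) ^ m) ≤ D * (2 ^ m * ((2 : ℝ) ^ j) ^ m) :=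
          mul_le_mul_of_nonneg_right (le_max_left _ _) (by positivity)
        rw [Real.mul_rpow (by norm_num) (by positivity)] at e1
        rw [pow_succ', ← e2, Real.mul_rpow (by norm_num) (by positivity)]
        have e6 := mul_le_mul_of_nonneg_right e3 (mul_nonneg hD0 e4)
        linarith
  refine ⟨D * 2 ^ m, fun T hT => ?_⟩
  obtain ⟨n, hn1, hn2⟩ := exists_nat_pow_near (x := T) (y := 2) hT (by norm_num)
  have e1 := hmono T (2 ^ (n + 1)) (by linarith) hn2.le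
  have e3 : ((2 : ℝ) ^ (n + 1)) ^ m ≤ 2 ^ m * T ^ m := by
    rw [← Real.mul_rpow (by norm_num) (by linarith)]
    refine Real.rpow_le_rpow (by positivity) ?_ (by linarith)
    rw [pow_succ']
    linarith
  calc ∫ t in (0 : ℝ)..T, g t ≤ D * ((2 : ℝ) ^ (n + 1)) ^ m := e1.trans (hall (n + 1))
    _ ≤ D * (2 ^ m * T ^ m) := mul_le_mul_of_nonneg_left e3 hD0
    _ = _ := by rw [← mul_assoc]

theorem cake {f : ℝ → ℝ} {T V A B : ℝ} {L : ℕ} (hf : Continuous f) (h0 : ∀ t, 0 ≤ f t)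
    (hT : 0 ≤ T) (hV : 0 < V) (hA : 0 ≤ A) (hL : ∀ t ∈ Set.Icc (T / 2) T, f t < 2 ^ L * V)
    (h : ∀ W : ℝ, V ≤ W → volume.real ({t | W ≤ f t} ∩ Set.Icc (T / 2) T) * W ^ A ≤ B) :
    ∫ t in (T / 2)..T, f t ^ A ≤ T * V ^ A + L * (2 ^ A * B) := by
  have hm : ∀ i : ℕ, MeasurableSet {t | 2 ^ i * V ≤ f t} := fun i =>
    measurableSet_le measurable_const hf.measurable
  have hc : ∀ c : ℝ, IntegrableOn (fun _ : ℝ => c) (Set.Icc (T / 2) T) := fun c =>
    integrableOn_const measure_Icc_lt_top.ne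
  have hi : ∀ i ∈ range L, Integrable ({t | 2 ^ i * V ≤ f t}.indicator
      fun _ => 2 ^ A * (2 ^ i * V) ^ A) (volume.restrict (Set.Icc (T / 2) T)) := fun i _ =>
    (hc _).indicator (hm i)
  rw [intervalIntegral.integral_of_le (by linarith), ← integral_Icc_eq_integral_Ioc]
  have s1 : ∫ t in Set.Icc (T / 2) T, f t ^ A ≤ ∫ t in Set.Icc (T / 2) T, (V ^ A +
      ∑ i ∈ range L, {t | 2 ^ i * V ≤ f t}.indicator (fun _ => 2 ^ A * (2 ^ i * V) ^ A) t) := by
    refine setIntegral_mono_on (hf.rpow_const fun _ => Or.inr hA).integrableOn_Icc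
      ((hc _).add (integrable_finsetSum _ hi)) measurableSet_Icc fun t ht => ?_
    have a1 := Six.Final.tr_le hV hA (hL t ht)
    have a2 : f t ^ A ≤ V ^ A + Six.Final.tr V A (f t) := by
      unfold Six.Final.tr
      split_ifs with a3
      · exact le_add_of_nonneg_left (by positivity)
      · rw [add_zero]; exact Real.rpow_le_rpow (h0 t) (not_le.1 a3).le hA
    simp only [Set.indicator_apply, Set.mem_ofPred_eq]
    linarith
  rw [integral_add (by exact hc _) (integrable_finsetSum _ hi), integral_finsetSum _ hi,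
    setIntegral_const, smul_eq_mul, Real.volume_real_Icc_of_le (by linarith)] at s1
  have s2 : ∑ i ∈ range L, ∫ t in Set.Icc (T / 2) T, {t | 2 ^ i * V ≤ f t}.indicator
      (fun _ => 2 ^ A * (2 ^ i * V) ^ A) t ≤ L * (2 ^ A * B) := by
    refine (sum_le_card_nsmul _ _ (2 ^ A * B) fun i _ => ?_).trans_eq (by simp)
    rw [integral_indicator_const _ (hm i), smul_eq_mul, measureReal_restrict_apply (hm i),
      mul_left_comm]
    exact mul_le_mul_of_nonneg_left
      (h _ (le_mul_of_one_le_left hV.le (one_le_pow₀ one_le_two))) (by positivity)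
  have s3 : 0 ≤ T * V ^ A := by positivity
  linarith

theorem moment_of_levels {σ A : ℝ} (h1 : 1 / 2 < σ) (h2 : σ < 1) (hA : 0 ≤ A) (hA9 : A ≤ 9)
    (h : ∀ ε : ℝ, 0 < ε → ∀ᶠ T : ℝ in atTop, ∀ V : ℝ, T ^ ε ≤ V →
      volume.real ({t | V ≤ zo σ t} ∩ Set.Icc (T / 2) T) * V ^ A ≤ T ^ (1 + ε)) {ε : ℝ}
    (hε : 0 < ε) : ∃ C : ℝ, ∀ T : ℝ, 1 ≤ T → ∫ t in (0 : ℝ)..T, zo σ t ^ A ≤ C * T ^ (1 + ε) := by
  have hc := continuous_zo h2
  have hη : 0 < ε / 9 := by positivity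
  refine dyadic (C := 1 + 2 ^ A) (hc.rpow_const fun _ => Or.inr hA)
    (fun t => Real.rpow_nonneg (norm_nonneg _) A) (by linarith) ?_
  filter_upwards [h _ hη, eventually_ge_atTop 16,
    (isLittleO_log_rpow_atTop hη).bound (c := 1 / 4) (by norm_num)] with T h hT hlog
  have hT0 : 0 < T := by linarith
  have hT1 : 1 ≤ T := by linarith
  rw [Real.norm_of_nonneg (Real.log_nonneg hT1), Real.norm_of_nonneg (by positivity)] at hlog
  have hV1 : 1 ≤ T ^ (ε / 9) := Real.one_le_rpow hT1 hη.le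
  obtain ⟨n, hn1, hn2⟩ := exists_nat_pow_near (x := 15 * T) (y := 2) (by linarith) one_lt_two
  refine (cake (L := n + 1) hc (fun t => norm_nonneg _) hT0.le (by linarith) hA
    (fun t ht => ?_) h).trans ?_
  · have a1 := norm_zeta_strip_le (σ := σ) (t := t) ⟨by linarith, by linarith⟩
      (le_trans (by linarith [ht.1]) (le_abs_self t))
    rw [abs_of_pos (by linarith [ht.1])] at a1
    have a2 := mul_le_mul_of_nonneg_left hV1 (by positivity : (0 : ℝ) ≤ 2 ^ (n + 1))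
    have a3 : zo σ t ≤ 15 * t := a1
    linarith [ht.2]
  · have a1 : ((n + 1 : ℕ) : ℝ) ≤ T ^ (ε / 9) := by
      have b1 := Real.log_le_log (by positivity)
        (show (2 : ℝ) ^ (n + 1) ≤ T * T * 2 by rw [pow_succ]; nlinarith)
      rw [Real.log_pow, Real.log_mul (by positivity) two_ne_zero, Real.log_mul hT0.ne' hT0.ne'] at b1
      have b2 : 4 * Real.log 2 ≤ Real.log T := by
        have := Real.log_le_log (by norm_num) (show (2 : ℝ) ^ 4 ≤ T by linarith)
        rwa [Real.log_pow, Nat.cast_ofNat] at this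
      have b3 := mul_le_mul_of_nonneg_left Real.log_two_gt_d9.le (Nat.cast_nonneg (n + 1))
      linarith [Real.log_nonneg hT1]
    have a2 : T * (T ^ (ε / 9)) ^ A ≤ T ^ (1 + ε) := by
      rw [Real.rpow_add hT0, Real.rpow_one, ← Real.rpow_mul hT0.le]
      exact mul_le_mul_of_nonneg_left
        (Real.rpow_le_rpow_of_exponent_le hT1 (by nlinarith)) hT0.le
    have a3 : T ^ (ε / 9) * T ^ (1 + ε / 9) ≤ T ^ (1 + ε) := by
      rw [← Real.rpow_add hT0]
      exact Real.rpow_le_rpow_of_exponent_le hT1 (by linarith)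
    have a4 := mul_le_mul_of_nonneg_right a1 (by positivity : 0 ≤ 2 ^ A * T ^ (1 + ε / 9))
    have a5 := mul_le_mul_of_nonneg_left a3 (by positivity : (0 : ℝ) ≤ 2 ^ A)
    linarith

theorem mom_high {k : ℝ} (h2 : 2 ≤ k) (h6 : k ≤ 6) :
    Mom (2 * k) (max (1 + 3 * (k - 2) / 13) (2 - 6 * (6 - k) / 23)) := fun ε hε =>
  Six.main2 k ε h2 h6 hε

theorem mom_twelve : ∃ δ : ℝ, 0 < δ ∧ δ ≤ 1 / 100 ∧ Mom 12 (2 - δ) := by
  obtain ⟨δ, hδ, C, h⟩ := Six.twelve
  refine ⟨min δ (1 / 100), by positivity, min_le_right _ _, fun ε hε => ⟨max C 0, fun T hT => ?_⟩⟩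
  have e : ∀ t, C2.ff t ^ (12 : ℝ) = ‖riemannZeta (1 / 2 + t * Complex.I)‖ ^ 12 := fun t => by
    exact_mod_cast Real.rpow_natCast (C2.ff t) 12
  simp only [e]
  refine (h T hT).trans (mul_le_mul (le_max_left _ _)
    (Real.rpow_le_rpow_of_exponent_le hT ?_) (by positivity) (le_max_right _ _))
  linarith [min_le_left δ (1 / 100)]

theorem moment_adm {δ σ A : ℝ} (h : Adm δ σ A) (m12 : Mom 12 (2 - δ)) {ε : ℝ} (hε : 0 < ε) :
    ∃ C : ℝ, ∀ T : ℝ, 1 ≤ T → ∫ t in (0 : ℝ)..T, zo σ t ^ A ≤ C * T ^ (1 + ε) := by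
  have m4 := mom_high (k := 2) le_rfl (by norm_num)
  have m6 := mom_high (k := 31 / 9) (by norm_num) (by norm_num)
  have mA := mom_high (k := A / 2) (by linarith [h.a0]) (by linarith [h.a9])
  rw [show (2 : ℝ) * 2 = 4 by norm_num, max_eq_left (by norm_num),
    show (1 : ℝ) + 3 * (2 - 2) / 13 = 1 by norm_num] at m4
  rw [show (2 : ℝ) * (31 / 9) = 62 / 9 by norm_num, max_eq_left (by norm_num),
    show (1 : ℝ) + 3 * (31 / 9 - 2) / 13 = 4 / 3 by norm_num] at m6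
  rw [show 2 * (A / 2) = A by ring] at mA
  exact moment_of_levels h.s0 (by linarith [h.s1]) (by linarith [h.a0]) h.a9
    (fun _ hη => levels h m4 m6 m12 mA (le_max_of_le_left (by linarith [h.a0])) h.cut hη) hε

theorem main : ∃ δ : ℝ, 0 < δ ∧ ∀ σ A ε : ℝ, 1 / 2 < σ → σ ≤ 5 / 8 → 0 ≤ A →
    A ≤ min (48 / (37 - 50 * σ)) (min (56 / (40 - 53 * σ)) ((26 + δ) / (17 - 22 * σ))) → 0 < ε →
    ∃ C : ℝ, ∀ T : ℝ, 1 ≤ T →
      ∫ t in (0 : ℝ)..T, ‖riemannZeta (σ + t * Complex.I)‖ ^ A ≤ C * T ^ (1 + ε) := by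
  obtain ⟨δ, d0, d1, m12⟩ := mom_twelve
  refine ⟨δ, d0, fun σ A ε s0 s1 hA h hε => ?_⟩
  rw [le_min_iff, le_min_iff, le_div_iff₀ (by linarith), le_div_iff₀ (by linarith),
    le_div_iff₀ (by linarith)] at h
  rcases le_total 4 A with h4 | h4
  · exact moment_adm ⟨d0, d1, s0, s1, h4, h.1, h.2.1, h.2.2⟩ m12 hε
  obtain ⟨C, hC⟩ := moment_adm (A := 4)
    ⟨d0, d1, s0, s1, le_rfl, by linarith, by linarith, by linarith⟩ m12 hε
  refine ⟨1 + C, fun T hT => ?_⟩
  have hc := continuous_zo (σ := σ) (by linarith)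
  have c4 : Continuous fun t => zo σ t ^ (4 : ℝ) := hc.rpow_const fun _ => Or.inr (by norm_num)
  have a1 : ∫ t in (0 : ℝ)..T, zo σ t ^ A ≤ ∫ t in (0 : ℝ)..T, (1 + zo σ t ^ (4 : ℝ)) := by
    refine intervalIntegral.integral_mono_on (by linarith)
      ((hc.rpow_const fun _ => Or.inr hA).intervalIntegrable _ _)
      ((continuous_const.add c4).intervalIntegrable _ _) fun t _ => ?_
    have b0 : 0 ≤ zo σ t := norm_nonneg _
    rcases le_total (zo σ t) 1 with b1 | b1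
    · linarith [Real.rpow_le_one b0 b1 hA, Real.rpow_nonneg b0 4]
    · linarith [Real.rpow_le_rpow_of_exponent_le b1 h4]
  rw [intervalIntegral.integral_add (continuous_const.intervalIntegrable _ _)
    (c4.intervalIntegrable _ _), intervalIntegral.integral_const, smul_eq_mul] at a1
  have a2 : T ≤ T ^ (1 + ε) := by
    simpa using Real.rpow_le_rpow_of_exponent_le hT (by linarith : 1 ≤ 1 + ε)
  have a3 := hC T hT
  change ∫ t in (0 : ℝ)..T, zo σ t ^ A ≤ _
  linarith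

end Pool.Agent.MP_3d0d30_nt.Off

end
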