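import Pool.Agent.MP_db1c88_nt.z94.Main
import Pool.Agent.MP_3d0d30_nt.Off.Apx

/-! Moments of zeta off the critical line: large values of the Gaussian average. -/

set_option autoImplicit false

noncomputable section

namespace Pool.Agent.MP_3d0d30_nt.Off

open MeasureTheory Filter Set
open Pool.Agent.MP_db1c88_nt.z94 Pool.Agent.MP_db1c88_nt.z94.C2

theorem zs_eq (t : ℝ) : zs t = ∫ u, C2.ff (t + u) * ww u := rfl

theorem measurable_zs : Measurable zs := by
  have h : Continuous fun p : ℝ × ℝ => C2.ff (p.1 + p.2) * ww p.2 := by fun_prop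
  exact (h.stronglyMeasurable.integral_prod_right' (ν := volume)).measurable

theorem ff_nonneg (v : ℝ) : 0 ≤ C2.ff v := norm_nonneg _

theorem continuous_ff_rpow {p : ℝ} (hp : 0 ≤ p) : Continuous fun v => C2.ff v ^ p :=
  continuous_ff.rpow_const fun _ => Or.inr hp

theorem integrable_ww12 : Integrable fun u => u ^ 12 * ww u := by
  have h := integrable_rpow_mul_exp_neg_mul_sq (b := 1 / 2) (s := (12 : ℕ)) (by norm_num)
    (by norm_num)
  simp only [Real.rpow_natCast] at h
  rw [ww_eq]; exact h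

theorem ff_tail' {T t u p : ℝ} (hT : 2 ≤ T) (h1 : T / 2 ≤ t) (h2 : t ≤ T) (hp : 0 ≤ p)
    (hp' : p ≤ 12) (h : t + u ∉ Icc 0 (2 * T)) : C2.ff (t + u) ^ p ≤ 8 ^ 12 * u ^ 12 := by
  have a1 : T / 2 ≤ |u| := by
    rw [mem_Icc, not_and_or, not_le, not_le] at h
    rcases h with h | h
    · linarith [neg_le_abs u]
    · linarith [le_abs_self u]
  have a2 : C2.ff (t + u) ≤ 8 * |u| := by
    refine (MP_3d0d30_nt.norm_zeta_half_le (t + u)).trans ?_
    have := abs_add_le t u
    rw [abs_of_pos (show 0 < t by linarith)] at this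
    linarith
  calc _ ≤ (8 * |u|) ^ p := Real.rpow_le_rpow (ff_nonneg _) a2 hp
    _ ≤ (8 * |u|) ^ ((12 : ℕ) : ℝ) :=
        Real.rpow_le_rpow_of_exponent_le (by linarith) (by exact_mod_cast hp')
    _ = _ := by rw [Real.rpow_natCast, mul_pow, Even.pow_abs (by decide)]

theorem young {x y p : ℝ} (hx : 0 ≤ x) (hy : 0 < y) (hp : 1 ≤ p) :
    y ^ (p - 1) * x ≤ y ^ (p - 1) * y + x ^ p := by
  rcases le_total x y with h | h
  · have := mul_le_mul_of_nonneg_left h (Real.rpow_nonneg hy.le (p - 1))
    linarith [Real.rpow_nonneg hx p]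
  · have h1 : y ^ (p - 1) ≤ x ^ (p - 1) := Real.rpow_le_rpow hy.le h (by linarith)
    have h2 : x ^ p = x ^ (p - 1) * x := by
      rw [← Real.rpow_add_one (by linarith : x ≠ 0), sub_add_cancel]
    have h3 := mul_le_mul_of_nonneg_right h1 hx
    have h4 : 0 ≤ y ^ (p - 1) * y := by positivity
    linarith

theorem one_point {T t X p : ℝ} (hT : 2 ≤ T) (h1 : T / 2 ≤ t) (h2 : t ≤ T) (hp : 1 ≤ p)
    (hp' : p ≤ 12) (hX : 0 < X) (h : X ≤ zs t) :
    3 * (X / 6) ^ p ≤ (∫ v in Icc 0 (2 * T), C2.ff v ^ p * ww (v - t)) +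
      8 ^ 12 * ∫ u, u ^ 12 * ww u := by
  rw [zs_eq] at h
  have i0 : Integrable fun u => C2.ff (t + u) * ww u :=
    Integrable.of_integral_ne_zero (hX.trans_le h).ne'
  have hc := continuous_ff_rpow (p := p) (by linarith)
  set g : ℝ → ℝ := (Icc 0 (2 * T)).indicator fun v => C2.ff v ^ p * ww (v - t) with hg
  have i1 : Integrable g := (integrable_indicator_iff measurableSet_Icc).mpr
    (Continuous.integrableOn_Icc (by fun_prop))
  have i2 := i1.comp_add_left t
  have e : ∫ u, g (t + u) = ∫ v in Icc 0 (2 * T), C2.ff v ^ p * ww (v - t) := by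
    rw [integral_add_left_eq_self g t, hg, integral_indicator measurableSet_Icc]
  have hy : 0 < X / 6 := by positivity
  set y := X / 6 with hyX
  have key := integral_mono (i0.const_mul (y ^ (p - 1)))
    (((integrable_ww.const_mul (y ^ (p - 1) * y)).add i2).add
      (integrable_ww12.const_mul (8 ^ 12))) fun u => by
      have b0 := ww_pos u
      have b1 := young (ff_nonneg (t + u)) hy hp
      have b2 : C2.ff (t + u) ^ p * ww u ≤ g (t + u) + 8 ^ 12 * (u ^ 12 * ww u) := by
        by_cases hu : t + u ∈ Icc 0 (2 * T)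
        · rw [hg, indicator_of_mem hu, add_sub_cancel_left]
          exact le_add_of_nonneg_right (by positivity)
        · rw [hg, indicator_of_notMem hu, zero_add, ← mul_assoc]
          exact mul_le_mul_of_nonneg_right (ff_tail' hT h1 h2 (by linarith) hp' hu) b0.le
      have b3 := mul_le_mul_of_nonneg_right b1 b0.le
      simp only [Pi.add_apply]
      linarith
  simp only [Pi.add_apply] at key
  rw [integral_add (by exact (integrable_ww.const_mul _).add i2) (integrable_ww12.const_mul _),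
    integral_add (integrable_ww.const_mul _) i2, e, MeasureTheory.integral_const_mul,
    MeasureTheory.integral_const_mul, MeasureTheory.integral_const_mul] at key
  have c0 : 0 ≤ y ^ (p - 1) := by positivity
  have c1 := mul_le_mul_of_nonneg_left h c0
  have c2 := mul_le_mul_of_nonneg_left integral_ww_le (show 0 ≤ y ^ (p - 1) * y by positivity)
  have c3 : y ^ p = y ^ (p - 1) * y := by rw [← Real.rpow_add_one hy.ne', sub_add_cancel]
  have c4 : X = 6 * y := by rw [hyX]; ring
  rw [c4] at c1
  linarith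

/-- Chebyshev's inequality for the Gaussian average -/
theorem cheb {p M C₀ : ℝ} (hp : 1 ≤ p) (hp' : p ≤ 12) (hM : 1 ≤ M)
    (h : ∀ T : ℝ, 1 ≤ T → ∫ t in (0 : ℝ)..T, C2.ff t ^ p ≤ C₀ * T ^ M) :
    ∃ C : ℝ, 1 ≤ C ∧ ∀ (T X : ℝ) (W : Set ℝ), 2 ≤ T → 0 < X → MeasurableSet W →
      (∀ t ∈ W, T / 2 ≤ t ∧ t ≤ T ∧ X ≤ zs t) → volume.real W * X ^ p ≤ C * T ^ M := by
  set H : ℝ := ∫ u, u ^ 12 * ww u with hH
  have H0 : 0 ≤ H := integral_nonneg fun u => mul_nonneg (by positivity) (ww_pos u).le
  have hc := continuous_ff_rpow (p := p) (by linarith)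
  have hC : 0 ≤ C₀ := by
    have h1 := h 1 le_rfl
    rw [Real.one_rpow, mul_one] at h1
    exact le_trans (intervalIntegral.integral_nonneg zero_le_one fun t _ =>
      Real.rpow_nonneg (ff_nonneg t) p) h1
  refine ⟨6 ^ p * (C₀ * 2 ^ M + 8 ^ 12 * H) + 1, by
    have : 0 ≤ 6 ^ p * (C₀ * 2 ^ M + 8 ^ 12 * H) := by positivity
    linarith, fun T X W hT hX hW hWt => ?_⟩
  have T0 : 0 < T := by linarith
  have hWT : W ⊆ Icc 0 T := fun t ht => ⟨by linarith [(hWt t ht).1], (hWt t ht).2.1⟩
  have hfin := (volume_lt_top hWT).ne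
  have hint : Integrable (Function.uncurry fun t v : ℝ => C2.ff v ^ p * ww (v - t))
      ((volume.restrict W).prod (volume.restrict (Icc 0 (2 * T)))) := by
    rw [Measure.prod_restrict]
    have h1 : Continuous (Function.uncurry fun t v : ℝ => C2.ff v ^ p * ww (v - t)) :=
      (hc.comp continuous_snd).mul (by fun_prop)
    exact (h1.continuousOn.integrableOn_compact (isCompact_Icc.prod isCompact_Icc)).mono_set
      (prod_mono hWT subset_rfl)
  have s1 : ∫ _t in W, 3 * (X / 6) ^ p ≤
      ∫ t in W, ((∫ v in Icc 0 (2 * T), C2.ff v ^ p * ww (v - t)) + 8 ^ 12 * H) :=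
    setIntegral_mono_on (integrableOn_const hfin)
      (hint.integral_prod_left.add (integrableOn_const hfin)) hW fun t ht =>
        one_point hT (hWt t ht).1 (hWt t ht).2.1 hp hp' hX (hWt t ht).2.2
  rw [integral_add (by exact hint.integral_prod_left) (by exact integrableOn_const hfin),
    setIntegral_const,
    setIntegral_const, smul_eq_mul, smul_eq_mul, integral_integral_swap hint] at s1
  have s2 : ∫ v in Icc 0 (2 * T), ∫ t in W, C2.ff v ^ p * ww (v - t) ≤
      ∫ v in Icc 0 (2 * T), 3 * C2.ff v ^ p := by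
    refine integral_mono hint.integral_prod_right
      (Continuous.integrableOn_Icc (by fun_prop)) fun v => ?_
    have a1 : ∫ t in W, ww (v - t) ≤ 3 := by
      refine (setIntegral_le_integral (integrable_ww.comp_sub_left v)
        (Eventually.of_forall fun t => (ww_pos _).le)).trans ?_
      rw [integral_sub_left_eq_self ww volume v]
      exact integral_ww_le
    have a2 := mul_le_mul_of_nonneg_left a1 (Real.rpow_nonneg (ff_nonneg v) p)
    simp only [MeasureTheory.integral_const_mul]
    linarith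
  rw [MeasureTheory.integral_const_mul] at s2
  have s3 := h (2 * T) (by linarith)
  rw [Real.mul_rpow (by norm_num) T0.le, intervalIntegral.integral_of_le (by linarith),
    ← integral_Icc_eq_integral_Ioc] at s3
  have s4 : T ≤ T ^ M := by
    simpa using Real.rpow_le_rpow_of_exponent_le (by linarith : 1 ≤ T) hM
  have s5 := volume_real_le T0.le hWT
  have s6 : X ^ p = 6 ^ p * (X / 6) ^ p := by
    rw [← Real.mul_rpow (by norm_num) (by positivity)]; congr 1; ring
  have s7 : volume.real W * (8 ^ 12 * H) ≤ T ^ M * (8 ^ 12 * H) :=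
    mul_le_mul_of_nonneg_right (s5.trans s4) (by positivity)
  have s8 : 0 ≤ T ^ M * (8 ^ 12 * H) := by positivity
  have s9 : volume.real W * (X / 6) ^ p ≤ (C₀ * 2 ^ M + 8 ^ 12 * H) * T ^ M := by linarith
  have s10 := mul_le_mul_of_nonneg_left s9 (show (0 : ℝ) ≤ 6 ^ p by positivity)
  rw [s6]
  linarith

end Pool.Agent.MP_3d0d30_nt.Off

end
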